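import Pool.Agent.Q152.CC.Stm3
import Pool.Agent.Q190.CC.Ex2

set_option autoImplicit false

/-! Project CC (helper152), job EX3: few `α` with a large sum, `2k`-th moments. -/

namespace Pool.Agent.Q182.CC.E3

open Finset MeasureTheory Pool.Agent.Y692.QS Pool.Agent.Q152.CC Pool.Agent.Q190.CC.E2

/-- the `2k`-th moment over the box -/
lemma mom (mo2 : S_MO2) (mb : S_MB) {k : ℕ} (hk : 1 ≤ k) {η : ℝ} (hη : 0 < η) : ∃ C : ℝ, 0 < C ∧
    ∀ h R N₀ : ℕ, 1 ≤ h → 1 ≤ R → ∀ c : ℕ → ℂ, (∀ n, ‖c n‖ ≤ 1) → ∀ M N : ℕ, 1 ≤ N → N ≤ N₀ →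
    M + N ≤ R →
    ∑ x ∈ range (2 * h), ∑ y ∈ range (2 * h),
      ‖∑ n ∈ Ioc M (M + N), c n * xi (al (-(h : ℤ) + x) (-(h : ℤ) + y)) n‖ ^ (2 * k) ≤
      C * ((h : ℝ) ^ 2 * ((R : ℝ) ^ η * N₀) ^ k +
        (R : ℝ) ^ (2 * k * (1 + η)) * (N₀ : ℝ) ^ (2 * k)) := by
  obtain ⟨C0, hC0, hmo⟩ := mo2 k η hη
  obtain ⟨D, hD, hmb⟩ := mb k hk η hη
  refine ⟨16 * D ^ k + 4 * C0, by positivity, ?_⟩
  intro h R N₀ hh hR c hc M N hN hNN hMN
  have h1 := hmo R (2 * h) (Ioc M (M + N)) c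
    (fun n hn => ⟨by have := (mem_Ioc.1 hn).1; omega, by have := (mem_Ioc.1 hn).2; omega⟩)
    (fun n _ => hc n)
  have h2 := hmb M N R hN hMN (fun n => ‖c n‖) (fun n => ⟨norm_nonneg _, hc n⟩)
  have hcard : (Ioc M (M + N)).card = N := by rw [Nat.card_Ioc]; omega
  rw [hcard] at h1
  have hd := diag2 h (fun x y => ‖∑ n ∈ Ioc M (M + N), c n * xi (al x y) n‖ ^ (2 * k))
    (fun x y => by positivity)
  have hh0 : (0 : ℝ) < h := by exact_mod_cast hh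
  have hR0 : (0 : ℝ) < R := by exact_mod_cast hR
  have hNR : (N : ℝ) ≤ N₀ := by exact_mod_cast hNN
  have hRη : 0 < (R : ℝ) ^ η := Real.rpow_pos_of_pos hR0 _
  set G : ℝ := (R : ℝ) ^ (2 * k * (1 + η)) with hG
  have hG0 : 0 < G := Real.rpow_pos_of_pos hR0 _
  set S : ℝ := ∑ x ∈ range (2 * h), ∑ y ∈ range (2 * h),
    ‖∑ n ∈ Ioc M (M + N), c n * xi (al (-(h : ℤ) + x) (-(h : ℤ) + y)) n‖ ^ (2 * k) with hS
  have h4 : (h : ℝ) ^ 2 * S ≤ (h : ℝ) ^ 2 * (16 * D ^ k * ((h : ℝ) ^ 2 * ((R : ℝ) ^ η * N₀) ^ k) +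
      4 * C0 * (G * (N₀ : ℝ) ^ (2 * k))) := by
    refine hd.trans (h1.trans ?_)
    have h5 : (((2 * h : ℕ) : ℝ)) ^ 4 * (∫ ω, ‖∑ n ∈ Ioc M (M + N),
        ((‖c n‖ : ℝ) : ℂ) * rc ω n‖ ^ (2 * k) ∂rm) ≤
        (((2 * h : ℕ) : ℝ)) ^ 4 * (D ^ k * ((R : ℝ) ^ η * N₀) ^ k) := by
      apply mul_le_mul_of_nonneg_left _ (by positivity)
      refine h2.trans ?_
      rw [← mul_pow]
      refine pow_le_pow_left₀ (by positivity) ?_ _
      rw [mul_assoc]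
      exact mul_le_mul_of_nonneg_left (mul_le_mul_of_nonneg_left hNR hRη.le) hD.le
    have h6 : C0 * ((2 * h : ℕ) : ℝ) ^ 2 * G * (N : ℝ) ^ (2 * k) ≤
        C0 * ((2 * h : ℕ) : ℝ) ^ 2 * G * (N₀ : ℝ) ^ (2 * k) :=
      mul_le_mul_of_nonneg_left (pow_le_pow_left₀ (Nat.cast_nonneg _) hNR _) (by positivity)
    refine (add_le_add h5 h6).trans (le_of_eq ?_)
    push_cast
    ring
  have h7 : S ≤ 16 * D ^ k * ((h : ℝ) ^ 2 * ((R : ℝ) ^ η * N₀) ^ k) +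
      4 * C0 * (G * (N₀ : ℝ) ^ (2 * k)) :=
    le_of_mul_le_mul_left h4 (by positivity)
  refine h7.trans ?_
  have h8 : 0 ≤ (h : ℝ) ^ 2 * ((R : ℝ) ^ η * N₀) ^ k := by positivity
  have h9 : 0 ≤ G * (N₀ : ℝ) ^ (2 * k) := by positivity
  have h10 : 0 ≤ D ^ k := by positivity
  rw [mul_add]
  refine add_le_add (mul_le_mul_of_nonneg_right ?_ h8) (mul_le_mul_of_nonneg_right ?_ h9)
  · linarith
  · linarith

/-- a large sum over the grid interval `(g i, g (i + l)]` inside `[0, R]` -/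
def GridL (h R g : ℕ) (c : ℕ → ℂ) (i l : ℕ) (t : ℕ × ℕ) : Prop :=
  g * (i + l) ≤ R ∧
  (g : ℝ) < ‖∑ n ∈ Ioc (g * i) (g * (i + l)), c n * xi (al (-(h : ℤ) + t.1) (-(h : ℤ) + t.2)) n‖

lemma grid_len {R N₀ g : ℕ} (hg : 1 ≤ g) {f : ℕ → ℂ} (hf : ∀ n, ‖f n‖ ≤ 1) {M N : ℕ}
    (hMN : M + N ≤ R) (hN : N ≤ N₀) (hl : 3 * (g : ℝ) < ‖∑ n ∈ Ioc M (M + N), f n‖) :
    ∃ i l : ℕ, i ≤ R / g ∧ l ≤ N₀ / g ∧ g * (i + l) ≤ R ∧
      (g : ℝ) < ‖∑ n ∈ Ioc (g * i) (g * (i + l)), f n‖ := by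
  have hb : ∀ u v : ℕ, ‖∑ n ∈ Ioc u v, f n‖ ≤ ((v - u : ℕ) : ℝ) := by
    intro u v
    calc ‖∑ n ∈ Ioc u v, f n‖ ≤ ∑ n ∈ Ioc u v, (1 : ℝ) := norm_sum_le_of_le _ fun n _ => hf n
      _ = _ := by rw [sum_const, Nat.card_Ioc, nsmul_eq_mul, mul_one]
  set i := (M + g - 1) / g with hi
  set j := (M + N) / g with hj
  have hi1 : g * i ≤ M + g - 1 := Nat.mul_div_le _ _
  have hi2 : M + g - 1 < g * i + g := by
    have := Nat.lt_mul_div_succ (M + g - 1) (show 0 < g by omega)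
    rw [← hi] at this
    calc _ < g * (i + 1) := this
      _ = _ := by ring
  have hj1 : g * j ≤ M + N := Nat.mul_div_le _ _
  have hj2 : M + N < g * j + g := by
    have := Nat.lt_mul_div_succ (M + N) (show 0 < g by omega)
    rw [← hj] at this
    calc _ < g * (j + 1) := this
      _ = _ := by ring
  have hg0 : (1 : ℝ) ≤ g := by exact_mod_cast hg
  by_cases hij : i ≤ j
  · have hgij : g * i ≤ g * j := Nat.mul_le_mul_left g hij
    have hjR : j ≤ R / g := Nat.div_le_div_right hMN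
    obtain ⟨l, hlj⟩ := Nat.exists_eq_add_of_le hij
    have hlN : l ≤ N₀ / g := by
      rw [Nat.le_div_iff_mul_le (by omega)]
      have e1 : g * j = g * i + l * g := by rw [hlj]; ring
      omega
    refine ⟨i, l, hij.trans hjR, hlN, ?_, ?_⟩
    · rw [← hlj]
      omega
    · rw [← hlj]
      have h1 : ∑ n ∈ Ioc M (M + N), f n = ∑ n ∈ Ioc M (g * i), f n +
          ∑ n ∈ Ioc (g * i) (g * j), f n + ∑ n ∈ Ioc (g * j) (M + N), f n := by
        rw [sum_Ioc_consecutive _ (show M ≤ g * i by omega) hgij,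
          sum_Ioc_consecutive _ (show M ≤ g * j by omega) hj1]
      have h2 := hb M (g * i)
      have h3 := hb (g * j) (M + N)
      have h4 : ((g * i - M : ℕ) : ℝ) ≤ g := by
        have : g * i - M ≤ g := by omega
        exact_mod_cast this
      have h5 : ((M + N - g * j : ℕ) : ℝ) ≤ g := by
        have : M + N - g * j ≤ g := by omega
        exact_mod_cast this
      have h6 : ‖∑ n ∈ Ioc M (M + N), f n‖ ≤ ‖∑ n ∈ Ioc M (g * i), f n‖ +
          ‖∑ n ∈ Ioc (g * i) (g * j), f n‖ + ‖∑ n ∈ Ioc (g * j) (M + N), f n‖ := by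
        rw [h1]
        exact norm_add₃_le
      linarith
  · exfalso
    have h1 : g * (j + 1) ≤ g * i := Nat.mul_le_mul_left g (by omega)
    have h2 : N ≤ g := by
      have : g * j + g ≤ g * i := by
        calc g * j + g = g * (j + 1) := by ring
          _ ≤ _ := h1
      omega
    have h3 := hb M (M + N)
    rw [Nat.add_sub_cancel_left] at h3
    have h4 : (N : ℝ) ≤ g := by exact_mod_cast h2
    linarith

theorem ex3 (mo2 : S_MO2) (mb : S_MB) : S_EX3 := by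
  classical
  intro k η hk hη
  obtain ⟨C, hC, hmom⟩ := mom mo2 mb hk hη
  refine ⟨4 * C, by positivity, ?_⟩
  intro h R N₀ g hh hg hgN hNR c hc
  have hR : 1 ≤ R := by omega
  have hg0 : (0 : ℝ) < g := by exact_mod_cast hg
  have hR0 : (0 : ℝ) < R := by exact_mod_cast hR
  set E : ℝ := (h : ℝ) ^ 2 * ((R : ℝ) ^ η * N₀) ^ k +
      (R : ℝ) ^ (2 * k * (1 + η)) * (N₀ : ℝ) ^ (2 * k) with hE
  have hE0 : 0 ≤ E := by positivity
  set J : Finset (ℕ × ℕ) := range (R / g + 1) ×ˢ range (N₀ / g + 1) with hJ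
  have hone : ∀ s ∈ J, (((range (2 * h) ×ˢ range (2 * h)).filter
      (GridL h R g c s.1 s.2)).card : ℝ) ≤ C * E / (g : ℝ) ^ (2 * k) := by
    intro s hs
    rw [hJ, mem_product, mem_range, mem_range] at hs
    by_cases hij : g * (s.1 + s.2) ≤ R ∧ 1 ≤ s.2
    · obtain ⟨hgj, hs2⟩ := hij
      have hlen : g * s.2 ≤ N₀ := by
        calc g * s.2 ≤ g * (N₀ / g) := Nat.mul_le_mul_left g (by omega)
          _ ≤ N₀ := Nat.mul_div_le _ _
      have e1 : g * (s.1 + s.2) = g * s.1 + g * s.2 := by ring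
      have hpos : 1 ≤ g * s.2 := Nat.mul_pos hg hs2
      have h1 := hmom h R N₀ hh hR c hc (g * s.1) (g * s.2) hpos hlen (by omega)
      rw [← e1] at h1
      rw [le_div_iff₀ (by positivity)]
      refine markov (fun x y => ‖∑ n ∈ Ioc (g * s.1) (g * (s.1 + s.2)),
        c n * xi (al (-(h : ℤ) + x) (-(h : ℤ) + y)) n‖ ^ (2 * k)) (fun x y => by positivity)
        (GridL h R g c s.1 s.2) ?_ h1
      intro t ht
      exact pow_le_pow_left₀ hg0.le ht.2.le (2 * k)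
    · have h0 : (range (2 * h) ×ˢ range (2 * h)).filter (GridL h R g c s.1 s.2) = ∅ := by
        rw [filter_eq_empty_iff]
        intro t _ ht
        obtain ⟨ht1, ht2⟩ := ht
        have hs0 : s.2 = 0 := by
          by_contra hne
          exact hij ⟨ht1, Nat.one_le_iff_ne_zero.2 hne⟩
        rw [hs0, add_zero, Ioc_self, sum_empty, norm_zero] at ht2
        linarith
      rw [h0, card_empty, Nat.cast_zero]
      positivity
  have hsub : (((range (2 * h)) ×ˢ (range (2 * h))).filter fun t : ℕ × ℕ => ∃ M N : ℕ, M + N ≤ R ∧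
      N ≤ N₀ ∧
      3 * (g : ℝ) < ‖∑ n ∈ Ioc M (M + N), c n * xi (al (-(h : ℤ) + t.1) (-(h : ℤ) + t.2)) n‖) ⊆
      J.biUnion fun s => (range (2 * h) ×ˢ range (2 * h)).filter (GridL h R g c s.1 s.2) := by
    intro t ht
    rw [mem_filter] at ht
    obtain ⟨ht1, M, N, hMN, hN, hl⟩ := ht
    have hf : ∀ n, ‖c n * xi (al (-(h : ℤ) + t.1) (-(h : ℤ) + t.2)) n‖ ≤ 1 := by
      intro n
      rw [norm_mul]
      exact mul_le_one₀ (hc n) (norm_nonneg _) (norm_xi _ _)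
    obtain ⟨i, l, hi, hll, hR', hij⟩ := grid_len hg hf hMN hN hl
    rw [mem_biUnion]
    refine ⟨(i, l), ?_, ?_⟩
    · rw [hJ, mem_product, mem_range, mem_range]
      exact ⟨Nat.lt_succ_of_le hi, Nat.lt_succ_of_le hll⟩
    · rw [mem_filter]
      exact ⟨ht1, hR', hij⟩
  have h1 : ((((range (2 * h)) ×ˢ (range (2 * h))).filter fun t : ℕ × ℕ => ∃ M N : ℕ,
      M + N ≤ R ∧ N ≤ N₀ ∧ 3 * (g : ℝ) <
      ‖∑ n ∈ Ioc M (M + N), c n * xi (al (-(h : ℤ) + t.1) (-(h : ℤ) + t.2)) n‖).card : ℝ) ≤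
      ∑ s ∈ J, (((range (2 * h) ×ˢ range (2 * h)).filter (GridL h R g c s.1 s.2)).card : ℝ) := by
    have := (card_le_card hsub).trans card_biUnion_le
    exact_mod_cast this
  refine h1.trans ((sum_le_sum hone).trans ?_)
  rw [sum_const, nsmul_eq_mul]
  have hcnt : ∀ Q : ℕ, g ≤ Q → ((Q / g + 1 : ℕ) : ℝ) ≤ 2 * Q / g := by
    intro Q hQ
    rw [le_div_iff₀ hg0]
    have h3 : (Q / g + 1) * g ≤ 2 * Q := by
      have := Nat.div_mul_le_self Q g
      calc (Q / g + 1) * g = Q / g * g + g := by ring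
        _ ≤ Q + Q := by omega
        _ = 2 * Q := by ring
    exact_mod_cast h3
  have hJc : (J.card : ℝ) ≤ 4 * R * N₀ / (g : ℝ) ^ 2 := by
    rw [hJ, card_product, card_range, card_range, Nat.cast_mul]
    have a1 := hcnt R (by omega)
    have a2 := hcnt N₀ hgN
    calc ((R / g + 1 : ℕ) : ℝ) * ((N₀ / g + 1 : ℕ) : ℝ) ≤ (2 * R / g) * (2 * N₀ / g) := by
          gcongr
      _ = _ := by ring
  calc (J.card : ℝ) * (C * E / (g : ℝ) ^ (2 * k)) ≤ 4 * R * N₀ / (g : ℝ) ^ 2 *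
        (C * E / (g : ℝ) ^ (2 * k)) := by gcongr
    _ = _ := by
      rw [div_mul_div_comm, ← pow_add, add_comm 2 (2 * k)]
      congr 1
      ring

end Pool.Agent.Q182.CC.E3
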