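import Pool.Agent.Q152.CC.Stm2

set_option autoImplicit false

/-!
Project CC (helper152), job FN1: the first part of the theorem, all scales.
-/

namespace Pool.Agent.Q182.CC

open Finset Pool.Agent.Y692.QS Pool.Agent.Q152.CC

theorem tail_sum (Y P : ℕ) (hY : 2 ≤ Y) : ∑ N ∈ Icc Y P, 1 / (N : ℝ) ^ 2 ≤ 1 := by
  have h : ∀ n : ℕ, Y ≤ n + 1 → ∑ N ∈ Icc Y n, 1 / (N : ℝ) ^ 2 ≤ 1 / ((Y : ℝ) - 1) - 1 / n := by
    intro n
    induction n with
    | zero => intro h; omega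
    | succ n ih =>
      intro hn
      rcases Nat.lt_or_ge (n + 1) Y with h1 | h1
      · have : Y = n + 1 + 1 := by omega
        subst this
        rw [Icc_eq_empty (by omega), sum_empty]
        push_cast
        rw [add_sub_cancel_right, sub_self]
      · rw [← insert_Icc_right_eq_Icc_add_one h1, sum_insert (by simp)]
        have h2 := ih h1
        have hn0 : (0 : ℝ) < n := by
          have : 0 < n := by omega
          exact_mod_cast this
        have h3 : 1 / (((n + 1 : ℕ) : ℝ)) ^ 2 ≤ 1 / n - 1 / ((n + 1 : ℕ) : ℝ) := by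
          push_cast
          rw [div_sub_div _ _ hn0.ne' (by positivity), div_le_div_iff₀ (by positivity) (by positivity)]
          nlinarith
        linarith
  rcases Nat.lt_or_ge P Y with h1 | h1
  · rw [Icc_eq_empty (by omega), sum_empty]
    norm_num
  · refine (h P (by omega)).trans ?_
    have h2 : (1 : ℝ) ≤ (Y : ℝ) - 1 := by
      have : (2 : ℝ) ≤ Y := by exact_mod_cast hY
      linarith
    have h3 : 1 / ((Y : ℝ) - 1) ≤ 1 := by
      rw [div_le_one (by linarith)]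
      exact h2
    have h4 : (0 : ℝ) ≤ 1 / P := by positivity
    linarith

/-- the product of two characters of different moduli -/
theorem mul_char {d q : ℕ} (ψ : DirichletCharacter ℂ d) (ψ' : DirichletCharacter ℂ q) :
    ∃ Ψ : DirichletCharacter ℂ (d * q), ∀ a : ℕ,
      Ψ (a : ZMod (d * q)) = ψ (a : ZMod d) * ψ' (a : ZMod q) := by
  refine ⟨DirichletCharacter.changeLevel (Dvd.intro _ rfl) ψ *
    DirichletCharacter.changeLevel (Dvd.intro_left _ rfl) ψ', fun a => ?_⟩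
  rw [MulChar.mul_apply]
  by_cases h : Nat.Coprime a (d * q)
  · have h1 : IsCoprime (a : ℤ) ((d * q : ℕ) : ℤ) := Nat.isCoprime_iff_coprime.2 h
    have h2 := DirichletCharacter.changeLevel_eq_cast_of_dvd' ψ (Dvd.intro q rfl : d ∣ d * q) h1
    have h3 := DirichletCharacter.changeLevel_eq_cast_of_dvd' ψ' (Dvd.intro_left d rfl : q ∣ d * q) h1
    simp only [Int.cast_natCast] at h2 h3
    rw [h2, h3]
  · have h1 : ¬ IsUnit ((a : ℕ) : ZMod (d * q)) := by
      rwa [ZMod.isUnit_iff_coprime]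
    rw [MulChar.map_nonunit _ h1, zero_mul]
    rw [Nat.coprime_mul_iff_right] at h
    by_cases hd : Nat.Coprime a d
    · have h2 : ¬ IsUnit ((a : ℕ) : ZMod q) := by
        rw [ZMod.isUnit_iff_coprime]
        exact fun h' => h ⟨hd, h'⟩
      rw [MulChar.map_nonunit ψ' h2, mul_zero]
    · have h2 : ¬ IsUnit ((a : ℕ) : ZMod d) := by
        rwa [ZMod.isUnit_iff_coprime]
      rw [MulChar.map_nonunit ψ h2, zero_mul]

/-- the property counted -/
def BadF (A : ℕ) (ε : ℝ) (P : ℕ) (Y : ℝ) (f : ℕ → ℂ) : Prop :=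
  ¬ ∀ X : ℝ, Y ≤ X → X ^ A ≤ P → ∀ q : ℕ, 1 ≤ q → (q : ℝ) ≤ X →
    ∀ (ψ : DirichletCharacter ℂ q) (M N : ℕ), ((M + N : ℕ) : ℝ) ≤ X →
      ‖∑ a ∈ Ioc M (M + N), f a * ψ (a : ZMod q)‖ ≤ X ^ ε * Real.sqrt N

theorem badF_congr {A : ℕ} {ε : ℝ} {P : ℕ} {Y : ℝ} {f g : ℕ → ℂ} (h : ∀ n, 1 ≤ n → f n = g n) :
    BadF A ε P Y f ↔ BadF A ε P Y g := by
  unfold BadF
  refine not_congr (forall_congr' fun X => imp_congr_right fun _ => imp_congr_right fun _ =>
    forall_congr' fun q => imp_congr_right fun _ => imp_congr_right fun _ => forall_congr' fun ψ =>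
    forall_congr' fun M => forall_congr' fun N => imp_congr_right fun _ => ?_)
  have : ∑ a ∈ Ioc M (M + N), f a * ψ (a : ZMod q) = ∑ a ∈ Ioc M (M + N), g a * ψ (a : ZMod q) := by
    refine Finset.sum_congr rfl fun a ha => ?_
    have h1 := (Finset.mem_Ioc.1 ha).1
    rw [h a (by omega)]
  rw [this]

/-- a bad function comes from a bad scale -/
theorem badF_scale {A : ℕ} {ε : ℝ} (hε : 0 < ε) {P : ℕ} {Y : ℝ} (hY : 1 ≤ Y) {α : Ei} {d : ℕ}
    (hd : d = 1 ∨ d = 9) {ψ : DirichletCharacter ℂ d}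
    (h : BadF A ε P Y fun n => xi α n * ψ (n : ZMod d)) :
    ∃ R : ℕ, ⌊Y⌋₊ ≤ R ∧ R ^ A ≤ P ∧ ¬ Good ε R α := by
  unfold BadF at h
  push Not at h
  obtain ⟨X, hX, hXP, q, hq1, hqX, ψ', M, N, hMN, hbad⟩ := h
  have hX0 : 0 ≤ X := by linarith
  refine ⟨⌊X⌋₊, Nat.floor_mono hX, ?_, ?_⟩
  · have h1 : ((⌊X⌋₊ : ℕ) : ℝ) ≤ X := Nat.floor_le hX0
    have h2 : ((⌊X⌋₊ : ℕ) : ℝ) ^ A ≤ P := (pow_le_pow_left₀ (Nat.cast_nonneg _) h1 _).trans hXP
    exact_mod_cast h2
  · intro hG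
    obtain ⟨Ψ, hΨ⟩ := mul_char ψ ψ'
    have hqR : q ≤ ⌊X⌋₊ := Nat.le_floor hqX
    have hMR : M + N ≤ ⌊X⌋₊ := Nat.le_floor hMN
    have hd1 : 1 ≤ d := by omega
    have hd9 : d ≤ 9 := by omega
    have h1 := hG (d * q) (Nat.mul_pos hd1 hq1) (Nat.mul_le_mul hd9 hqR) Ψ M N hMR
    have h2 : ∑ n ∈ Ioc M (M + N), xi α n * Ψ (n : ZMod (d * q)) =
        ∑ a ∈ Ioc M (M + N), xi α a * ψ (a : ZMod d) * ψ' (a : ZMod q) := by
      refine Finset.sum_congr rfl fun a _ => ?_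
      rw [hΨ, mul_assoc]
    rw [h2] at h1
    have h3 : ((⌊X⌋₊ : ℕ) : ℝ) ^ ε ≤ X ^ ε :=
      Real.rpow_le_rpow (Nat.cast_nonneg _) (Nat.floor_le hX0) hε.le
    have h4 := h1.trans (mul_le_mul_of_nonneg_right h3 (Real.sqrt_nonneg N))
    exact absurd hbad (not_lt.2 h4)

theorem fn1 (ex1 : S_EX1) (cnt : S_CNT) : S_FN1 := by
  classical
  intro B ε hε
  obtain ⟨A₁, R₀, hex⟩ := ex1 (B + 3) ε hε
  refine ⟨2 * A₁ + 1, max ((R₀ : ℝ) + 1) (112 * 2 ^ (B + 1)), ?_⟩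
  intro P Y hY
  have hY1 : (R₀ : ℝ) + 1 ≤ Y := (le_max_left _ _).trans hY
  have hY2 : (112 : ℝ) * 2 ^ (B + 1) ≤ Y := (le_max_right _ _).trans hY
  have hp1 : (1 : ℝ) ≤ 2 ^ (B + 1) := one_le_pow₀ (by norm_num)
  have hY3 : (112 : ℝ) ≤ Y := by linarith
  have hY0 : 0 < Y := by linarith
  set A := 2 * A₁ + 1 with hA
  set y : ℕ := ⌊Y⌋₊ with hy
  have hy2 : 2 ≤ y := Nat.le_floor (by push_cast; linarith)
  have hyR : R₀ ≤ y := Nat.le_floor (by linarith)
  have hyY : Y / 2 ≤ y := by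
    have := Nat.lt_floor_add_one Y
    linarith
  have hy0 : (0 : ℝ) < y := by linarith
  have h1 := (cnt P (BadF A ε P Y) (fun f g h => badF_congr h)).2
  have h2 : {χ ∈ family P | BadF A ε P Y fun n => χ.2 (n : ZMod χ.1)} =
      {χ ∈ family P | ¬ ∀ X : ℝ, Y ≤ X → X ^ A ≤ P → SquareRoot ε X χ.2} := rfl
  rw [h2] at h1
  refine h1.trans ?_
  set s : ℕ := Nat.sqrt P + 1 with hs
  set L : ℕ := 2 * s with hL
  set bx : ℕ × ℕ → Ei := fun t => al (-((Nat.sqrt P : ℤ) + 1) + t.1) (-((Nat.sqrt P : ℤ) + 1) + t.2) with hbx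
  set E : ℕ → Finset (ℕ × ℕ) := fun R =>
    if R ^ A ≤ P then (range L ×ˢ range L).filter fun t => ¬ Good ε R (bx t) else ∅ with hE
  have hP0 : (0 : ℝ) ≤ P := Nat.cast_nonneg _
  have hsub : (((range L) ×ˢ (range L)).filter fun t : ℕ × ℕ =>
      ∃ (d : ℕ) (ψ : DirichletCharacter ℂ d), (d = 1 ∨ d = 9) ∧ BadF A ε P Y fun n =>
        xi (bx t) n * ψ (n : ZMod d)) ⊆ (Icc y P).biUnion E := by
    intro t ht
    obtain ⟨ht1, d, ψ, hd, hb⟩ := Finset.mem_filter.1 ht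
    obtain ⟨R, hR1, hR2, hR3⟩ := badF_scale hε (by linarith) hd hb
    have hRP : R ≤ P := by
      refine le_trans ?_ hR2
      calc R = R ^ 1 := (pow_one _).symm
        _ ≤ R ^ A := Nat.pow_le_pow_right (by omega) (by omega)
    refine Finset.mem_biUnion.2 ⟨R, Finset.mem_Icc.2 ⟨hR1, hRP⟩, ?_⟩
    rw [hE]
    simp only
    rw [if_pos hR2]
    exact Finset.mem_filter.2 ⟨ht1, hR3⟩
  have hone : ∀ R ∈ Icc y P, ((E R).card : ℝ) ≤ 16 * P / (y : ℝ) ^ (B + 1) * (1 / (R : ℝ) ^ 2) := by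
    intro R hR
    obtain ⟨hR1, hR2⟩ := Finset.mem_Icc.1 hR
    have hR0 : (0 : ℝ) < R := by
      have : 0 < R := by omega
      exact_mod_cast this
    by_cases hRA : R ^ A ≤ P
    · have hEq : E R = (range L ×ˢ range L).filter fun t => ¬ Good ε R (bx t) := by
        rw [hE]
        simp only
        rw [if_pos hRA]
      have hsq : P < s * s := Nat.lt_succ_sqrt P
      have hRL : R ^ A₁ ≤ L := by
        have h3 : (R ^ A₁) ^ 2 ≤ R ^ A := by
          rw [← pow_mul]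
          exact Nat.pow_le_pow_right (by omega) (by omega)
        have h4 : (R ^ A₁) ^ 2 < s ^ 2 := by
          rw [pow_two s]
          omega
        have h5 : R ^ A₁ < s := lt_of_pow_lt_pow_left₀ 2 (Nat.zero_le _) h4
        omega
      have h3 := hex (-((Nat.sqrt P : ℤ) + 1)) (-((Nat.sqrt P : ℤ) + 1)) L R (by omega) hRL
      have hP1 : 1 ≤ P := by omega
      have hL2 : L * L ≤ 16 * P := by
        have h5 : 1 ≤ Nat.sqrt P := Nat.sqrt_pos.2 hP1
        have h6 : Nat.sqrt P * Nat.sqrt P ≤ P := Nat.sqrt_le P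
        have h7 : L ≤ 4 * Nat.sqrt P := by omega
        calc L * L ≤ (4 * Nat.sqrt P) * (4 * Nat.sqrt P) := Nat.mul_le_mul h7 h7
          _ = 16 * (Nat.sqrt P * Nat.sqrt P) := by ring
          _ ≤ 16 * P := by omega
      have hL2' : (L : ℝ) ^ 2 ≤ 16 * P := by
        rw [pow_two]
        exact_mod_cast hL2
      rw [hEq]
      refine h3.trans ?_
      have hyRr : (y : ℝ) ^ (B + 1) ≤ (R : ℝ) ^ (B + 1) :=
        pow_le_pow_left₀ hy0.le (by exact_mod_cast hR1) _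
      calc (L : ℝ) ^ 2 / (R : ℝ) ^ (B + 3) ≤ 16 * P / (R : ℝ) ^ (B + 3) := by
            exact div_le_div_of_nonneg_right hL2' (by positivity)
        _ = 16 * P / (R : ℝ) ^ (B + 1) * (1 / (R : ℝ) ^ 2) := by
            have : (R : ℝ) ^ (B + 3) = (R : ℝ) ^ (B + 1) * (R : ℝ) ^ 2 := by ring
            rw [this]
            field_simp
        _ ≤ _ := by
            refine mul_le_mul_of_nonneg_right ?_ (by positivity)
            exact div_le_div_of_nonneg_left (by positivity) (by positivity) hyRr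
    · have hEq : E R = ∅ := by
        rw [hE]
        simp only
        rw [if_neg hRA]
      rw [hEq, Finset.card_empty]
      push_cast
      positivity
  have hcard : (((((range L) ×ˢ (range L)).filter fun t : ℕ × ℕ =>
      ∃ (d : ℕ) (ψ : DirichletCharacter ℂ d), (d = 1 ∨ d = 9) ∧ BadF A ε P Y fun n =>
        xi (bx t) n * ψ (n : ZMod d)).card : ℕ) : ℝ) ≤ 16 * P / (y : ℝ) ^ (B + 1) := by
    calc (((((range L) ×ˢ (range L)).filter fun t : ℕ × ℕ =>
          ∃ (d : ℕ) (ψ : DirichletCharacter ℂ d), (d = 1 ∨ d = 9) ∧ BadF A ε P Y fun n =>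
          xi (bx t) n * ψ (n : ZMod d)).card : ℕ) : ℝ)
        ≤ (((Icc y P).biUnion E).card : ℝ) := Nat.cast_le.2 (Finset.card_le_card hsub)
      _ ≤ ∑ R ∈ Icc y P, ((E R).card : ℝ) := by exact_mod_cast Finset.card_biUnion_le
      _ ≤ ∑ R ∈ Icc y P, 16 * P / (y : ℝ) ^ (B + 1) * (1 / (R : ℝ) ^ 2) := Finset.sum_le_sum hone
      _ = 16 * P / (y : ℝ) ^ (B + 1) * ∑ R ∈ Icc y P, 1 / (R : ℝ) ^ 2 := by rw [Finset.mul_sum]
      _ ≤ 16 * P / (y : ℝ) ^ (B + 1) * 1 :=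
          mul_le_mul_of_nonneg_left (tail_sum y P hy2) (by positivity)
      _ = _ := mul_one _
  have hfin : 7 * (16 * P / (y : ℝ) ^ (B + 1)) ≤ P / Y ^ B := by
    have h3 : (Y / 2) ^ (B + 1) ≤ (y : ℝ) ^ (B + 1) := pow_le_pow_left₀ (by positivity) hyY _
    have h4 : 112 * Y ^ B ≤ (Y / 2) ^ (B + 1) := by
      rw [div_pow, le_div_iff₀ (by positivity), pow_succ Y]
      calc 112 * Y ^ B * 2 ^ (B + 1) = Y ^ B * (112 * 2 ^ (B + 1)) := by ring
        _ ≤ Y ^ B * Y := mul_le_mul_of_nonneg_left hY2 (by positivity)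
    have h5 := h4.trans h3
    rw [mul_div_assoc', div_le_div_iff₀ (by positivity) (by positivity)]
    calc 7 * (16 * (P : ℝ)) * Y ^ B = P * (112 * Y ^ B) := by ring
      _ ≤ P * (y : ℝ) ^ (B + 1) := mul_le_mul_of_nonneg_left h5 hP0
  refine le_trans ?_ hfin
  exact mul_le_mul_of_nonneg_left hcard (by norm_num)

end Pool.Agent.Q182.CC
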