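import Pool.Agent.Q152.CC.Stm

set_option autoImplicit false

/-!
Project CC (helper152), job LOC: the elements of norm at most `P` are in a box.
-/

namespace Pool.Agent.Q182.CC

open Finset Pool.Agent.Y692.QS Pool.Agent.Q152.CC

theorem loc : S_LOC := by
  intro P α h3 hP
  obtain ⟨a, b, ha, hb⟩ := prim_form h3
  have hs : (P : ℤ) < ((Nat.sqrt P : ℤ) + 1) * ((Nat.sqrt P : ℤ) + 1) := by
    have h := Nat.lt_succ_sqrt P
    have h' : P < (Nat.sqrt P + 1) * (Nat.sqrt P + 1) := h
    exact_mod_cast h'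
  set s : ℤ := (Nat.sqrt P : ℤ) + 1 with hsd
  have hs1 : 1 ≤ s := by omega
  unfold nr at hP
  have h1 : 3 * α.re ^ 2 ≤ 4 * P := by nlinarith [sq_nonneg (2 * α.im - α.re)]
  have h2 : 3 * α.im ^ 2 ≤ 4 * P := by nlinarith [sq_nonneg (2 * α.re - α.im)]
  rw [ha] at h1
  rw [hb] at h2
  have a1 : -s ≤ a := by
    by_contra h
    push Not at h
    have : a + s ≤ -1 := by omega
    nlinarith
  have a2 : a < s := by
    by_contra h
    push Not at h
    nlinarith
  have b1 : -s ≤ b := by
    by_contra h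
    push Not at h
    nlinarith
  have b2 : b < s := by
    by_contra h
    push Not at h
    nlinarith
  refine ⟨(a + s).toNat, ?_, (b + s).toNat, ?_, ?_⟩
  · rw [Finset.mem_range]
    omega
  · rw [Finset.mem_range]
    omega
  · have e1 : ((a + s).toNat : ℤ) = a + s := Int.toNat_of_nonneg (by omega)
    have e2 : ((b + s).toNat : ℤ) = b + s := Int.toNat_of_nonneg (by omega)
    rw [e1, e2]
    unfold al
    ext
    · show α.re = 1 + 3 * (-s + (a + s))
      rw [ha]; ring
    · show α.im = 3 * (-s + (b + s))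
      rw [hb]; ring

end Pool.Agent.Q182.CC
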