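import Pool.Agent.Q152.CC.Stm

set_option autoImplicit false

/-!
Project CC (helper152), job NTP: the cubic symbol of a prime is not trivial.
-/

namespace Pool.Agent.Q182.CC

open Pool.Agent.Y692.QS Pool.Agent.Q152.CC

section

variable (q : ℕ) [hq : Fact q.Prime]

theorem int_of_frob {x : Kq q} (h : x ^ q = x) : ∃ n : ℤ, (n : Kq q) = x :=
  (mem_bot_iff_intCast q (Kq q)).1 ((Subfield.mem_bot_iff_pow_eq_self (Kq q) q).2 h)

theorem nz_of {n : ℕ} (h : ¬ q ∣ n) : ((n : ℕ) : Kq q) ≠ 0 := by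
  intro h1
  rw [CharP.cast_eq_zero_iff (Kq q) q] at h1
  exact h h1

/-- from the value in characteristic `q` to the symbol -/
theorem kq_ne (hq3 : q ≠ 3) {γ : Ei} (h : IsCoprime (nr γ) (q : ℤ)) (hK : KK q hq3 γ ≠ 1) :
    kq q hq3 γ ≠ 1 := by
  intro h1
  apply hK
  have h2 := (cu_spec (zq_sq q hq3) (KK_cube q hq3 h)).2
  unfold kq at h1
  rw [h1, map_one] at h2
  exact h2.symm

/-- `γ` can be taken congruent to `1` modulo `3` -/
theorem lift3 (hq3 : q ≠ 3) {γ₀ : Ei} (h : IsCoprime (nr γ₀) (q : ℤ)) (hK : KK q hq3 γ₀ ≠ 1) :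
    ∃ γ : Ei, IsCoprime (nr γ) (q : ℤ) ∧ (3 : Ei) ∣ γ - 1 ∧ KK q hq3 γ ≠ 1 := by
  have hc : IsCoprime (3 : ℤ) (q : ℤ) := by
    have h1 : Nat.Coprime 3 q := (Nat.coprime_primes Nat.prime_three hq.out).2 (Ne.symm hq3)
    exact_mod_cast Nat.isCoprime_iff_coprime.2 h1
  obtain ⟨u, v, huv⟩ := hc
  -- `u * 3 + v * q = 1`
  have hd : ((q : ℤ) : Ei) ∣ (1 + 3 * (u : Ei) * (γ₀ - 1)) - γ₀ := by
    refine ⟨-(v : Ei) * (γ₀ - 1), ?_⟩
    have h1 : ((u : ℤ) : Ei) * 3 + (v : Ei) * ((q : ℤ) : Ei) = 1 := by exact_mod_cast congrArg (fun n : ℤ => (n : Ei)) huv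
    linear_combination (γ₀ - 1) * h1
  refine ⟨1 + 3 * (u : Ei) * (γ₀ - 1), ?_, ⟨(u : Ei) * (γ₀ - 1), by ring⟩, ?_⟩
  · obtain ⟨c, hc⟩ := hd
    have h2 : nr (1 + 3 * (u : Ei) * (γ₀ - 1)) = nr γ₀ + (q : ℤ) *
        (2 * γ₀.re * c.re - γ₀.re * c.im - γ₀.im * c.re + 2 * γ₀.im * c.im +
          (q : ℤ) * nr c) := by
      have h3 : 1 + 3 * (u : Ei) * (γ₀ - 1) = γ₀ + ((q : ℤ) : Ei) * c := by
        rw [← hc]; ring
      rw [h3]
      unfold nr
      rw [QuadraticAlgebra.re_add, QuadraticAlgebra.im_add, mul_re, mul_im,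
        QuadraticAlgebra.re_intCast, QuadraticAlgebra.im_intCast]
      simp only [Int.cast_id]
      ring
    rw [h2]
    exact (IsCoprime.add_mul_left_left_iff).2 h
  · rw [KK_per q hq3 hd]
    exact hK

/-- the case `q ≡ 1` modulo `3` -/
theorem case_one (hq3 : q ≠ 3) (hm : q % 3 = 1) :
    ∃ γ₀ : Ei, IsCoprime (nr γ₀) (q : ℤ) ∧ KK q hq3 γ₀ ≠ 1 := by
  have hq2 := hq.out.two_le
  have hz := zq_sq q hq3
  have h30 := three_ne_k q hq3
  obtain ⟨z₀, hz₀⟩ := int_of_frob q (pow_mod_one (z_cube hz) hm)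
  have hn : NeZero ((q - 1 : ℕ) : Kq q) := ⟨nz_of q fun h => by
    have := Nat.le_of_dvd (by omega) h
    omega⟩
  obtain ⟨ζ, hζ⟩ := HasEnoughRootsOfUnity.exists_primitiveRoot (Kq q) (q - 1)
  have hζq : ζ ^ q = ζ := by
    have : q = (q - 1) + 1 := by omega
    have h1 : ζ ^ q = ζ ^ (q - 1 + 1) := congrArg (fun n => ζ ^ n) this
    rw [h1, pow_succ, hζ.pow_eq_one, one_mul]
  have hζ0 : ζ ≠ 0 := hζ.ne_zero (by omega)
  set z : Kq q := zq q hq3 with hzd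
  have hzq : z ^ q = z := pow_mod_one (z_cube hz) hm
  have hd : (-1 - 2 * z) ≠ 0 := by
    intro h
    have h1 : (-1 - 2 * z) * (-1 - 2 * z) = -3 := by linear_combination 4 * hz
    rw [h, zero_mul] at h1
    apply h30
    linear_combination h1
  have hs : ((ζ - 1) / (-1 - 2 * z)) ^ q = (ζ - 1) / (-1 - 2 * z) := by
    have e1 : (-1 - 2 * z) = ((-1 : ℤ) : Kq q) - ((2 : ℤ) : Kq q) * z := by push_cast; ring
    rw [div_pow, sub_pow_char, one_pow, hζq, e1, sub_pow_char, mul_pow, int_frob, int_frob, hzq]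
  obtain ⟨s, hs'⟩ := int_of_frob q hs
  have hsv : 1 + (s : Kq q) * (-1 - 2 * z) = ζ := by
    rw [hs', div_mul_cancel₀ _ hd]
    ring
  set γ : Ei := 1 + (s : Ei) * (w - (z₀ : Ei)) with hγ
  have e1 : rq q hq3 γ = 1 := by
    unfold rq
    rw [hγ, map_add, map_one, map_mul, map_sub, map_intCast, map_intCast, hom_w, hz₀]
    ring
  have e2 : rq q hq3 (star γ) = ζ := by
    have : star γ = 1 + (s : Ei) * (-1 - w - (z₀ : Ei)) := by
      rw [hγ, star_add, star_mul, star_sub, star_w, pow_two, w_sq, star_one, star_intCast, star_intCast]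
      ring
    rw [this]
    unfold rq
    rw [map_add, map_one, map_mul, map_sub, map_sub, map_neg, map_one, map_intCast, map_intCast, hom_w,
      hz₀, ← hsv]
    ring
  have e3 : rq q hq3 (nr γ : Ei) = ζ := by
    rw [← mul_star, map_mul, e1, e2, one_mul]
  refine ⟨γ, ?_, ?_⟩
  · rw [isCoprime_comm, Prime.coprime_iff_not_dvd (Nat.prime_iff_prime_int.1 hq.out)]
    intro h
    apply hζ0
    rw [← e3, rq_int, CharP.intCast_eq_zero_iff (Kq q) q]
    exact h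
  · unfold KK
    rw [if_pos hm, map_mul, e1, e3, mul_one]
    intro h
    have h1 := (hζ.pow_eq_one_iff_dvd _).1 h
    have h2 := Nat.le_of_dvd (by omega) h1
    omega

/-- the case `q ≡ 2` modulo `3` -/
theorem case_two (hq3 : q ≠ 3) (hm : q % 3 = 2) :
    ∃ γ₀ : Ei, IsCoprime (nr γ₀) (q : ℤ) ∧ KK q hq3 γ₀ ≠ 1 := by
  have hq2 := hq.out.two_le
  have hz := zq_sq q hq3
  have h30 := three_ne_k q hq3
  have hqq : 4 ≤ q ^ 2 := by nlinarith
  have hn : NeZero ((q ^ 2 - 1 : ℕ) : Kq q) := ⟨nz_of q fun h => by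
    have h1 : q ∣ q ^ 2 := Dvd.intro_left _ (by ring)
    have h2 : q ∣ q ^ 2 - (q ^ 2 - 1) := Nat.dvd_sub h1 h
    have h3 : q ^ 2 - (q ^ 2 - 1) = 1 := by omega
    rw [h3] at h2
    have := Nat.le_of_dvd one_pos h2
    omega⟩
  obtain ⟨ζ, hζ⟩ := HasEnoughRootsOfUnity.exists_primitiveRoot (Kq q) (q ^ 2 - 1)
  have hζqq : (ζ ^ q) ^ q = ζ := by
    rw [← pow_mul, ← pow_two]
    have : q ^ 2 = (q ^ 2 - 1) + 1 := by omega
    have h1 : ζ ^ (q ^ 2) = ζ ^ (q ^ 2 - 1 + 1) := congrArg (fun n => ζ ^ n) this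
    rw [h1, pow_succ, hζ.pow_eq_one, one_mul]
  have hζ0 : ζ ≠ 0 := hζ.ne_zero (by omega)
  set z : Kq q := zq q hq3 with hzd
  have hzq : z ^ q = -1 - z := by
    rw [pow_mod_two (z_cube hz) hm, pow_two, hz]
  have hzqq : (-1 - z) ^ q = z := by
    have e1 : (-1 - z) = ((-1 : ℤ) : Kq q) - z := by push_cast; ring
    rw [e1, sub_pow_char, int_frob, hzq]
    push_cast
    ring
  have hd : z - (-1 - z) ≠ 0 := by
    intro h
    have h1 : (z - (-1 - z)) * (z - (-1 - z)) = -3 := by linear_combination 4 * hz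
    rw [h, zero_mul] at h1
    apply h30
    linear_combination h1
  set b : Kq q := (ζ - ζ ^ q) / (z - (-1 - z)) with hb
  have hbq : b ^ q = b := by
    rw [hb, div_pow, sub_pow_char, sub_pow_char, hζqq, hzq, hzqq, div_eq_div_iff _ hd]
    · ring
    · intro h
      apply hd
      linear_combination -h
  have hbm : b * (z - (-1 - z)) = ζ - ζ ^ q := by
    rw [hb, div_mul_cancel₀ _ hd]
  have haq : (ζ - b * z) ^ q = ζ - b * z := by
    rw [sub_pow_char, mul_pow, hbq, hzq]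
    linear_combination hbm
  obtain ⟨a₀, ha₀⟩ := int_of_frob q haq
  obtain ⟨b₀, hb₀⟩ := int_of_frob q hbq
  set γ : Ei := ⟨a₀, b₀⟩ with hγ
  have e1 : rq q hq3 γ = ζ := by
    unfold rq
    rw [hom_apply, hγ]
    show (a₀ : Kq q) + (b₀ : Kq q) * z = ζ
    rw [ha₀, hb₀]
    ring
  have e2 : rq q hq3 (nr γ : Ei) = ζ ^ (q + 1) := by
    rw [← mul_star, map_mul, ← rq_frob_two q hq3 hm, e1, pow_succ]
    ring
  refine ⟨γ, ?_, ?_⟩
  · rw [isCoprime_comm, Prime.coprime_iff_not_dvd (Nat.prime_iff_prime_int.1 hq.out)]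
    intro h
    have h1 : ζ ^ (q + 1) = 0 := by
      rw [← e2, rq_int, CharP.intCast_eq_zero_iff (Kq q) q]
      exact h
    exact hζ0 (pow_eq_zero_iff (by omega) |>.1 h1)
  · unfold KK
    rw [if_neg (by omega), map_mul, e1, e2]
    intro h
    have h0 : ζ ^ (q + 1) ≠ 0 := pow_ne_zero _ hζ0
    have h1 : (ζ ^ (q + 1) * ζ) ^ ((q + 1) / 3) = ζ ^ (q + 1) := by
      rw [← div_eq_mul_inv, div_eq_one_iff_eq h0] at h
      exact h
    obtain ⟨k, hk⟩ : ∃ k, q = 3 * k + 2 := ⟨q / 3, by omega⟩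
    have hk1 : (q + 1) / 3 = k + 1 := by omega
    rw [hk1, ← pow_succ, ← pow_mul] at h1
    have h2 : (q + 1 + 1) * (k + 1) = (q + 1) + (k + 1) * (q - 1) := by
      have : q - 1 = 3 * k + 1 := by omega
      rw [this, hk]
      ring
    rw [h2, pow_add] at h1
    have h3 : ζ ^ ((k + 1) * (q - 1)) = 1 := by
      apply mul_left_cancel₀ h0
      rw [h1, mul_one]
    have h4 := (hζ.pow_eq_one_iff_dvd _).1 h3
    have h5 : 0 < (k + 1) * (q - 1) := Nat.mul_pos (by omega) (by omega)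
    have h6 := Nat.le_of_dvd h5 h4
    have h7 : q - 1 = 3 * k + 1 := by omega
    rw [h7, hk] at h6
    have h8 : (3 * k + 2) ^ 2 - 1 = 3 * ((k + 1) * (3 * k + 1)) := by
      have : (3 * k + 2) ^ 2 = 3 * ((k + 1) * (3 * k + 1)) + 1 := by ring
      omega
    rw [h8] at h6
    have h9 : 0 < (k + 1) * (3 * k + 1) := by positivity
    omega

end

theorem ntp : S_NTP := by
  intro q hq
  by_cases hq3 : q = 3
  · subst hq3
    refine ⟨⟨1, 3⟩, ?_, ⟨w, by decide⟩, ?_⟩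
    · have : nr ⟨1, 3⟩ = 7 := by decide
      rw [this]
      exact ⟨1, -2, by norm_num⟩
    · have : kp 3 ⟨1, 3⟩ = k3 ⟨1, 3⟩ := by
        unfold kp
        rw [dif_neg (fun h => h.2 rfl), if_pos rfl]
      rw [this]
      have h2 : k3 ⟨1, 3⟩ = w := by
        unfold k3 f3
        decide
      rw [h2]
      decide
  · have : Fact q.Prime := ⟨hq⟩
    have key : ∃ γ₀ : Ei, IsCoprime (nr γ₀) (q : ℤ) ∧ KK q hq3 γ₀ ≠ 1 := by
      rcases q_mod q hq3 with hm | hm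
      · exact case_one q hq3 hm
      · exact case_two q hq3 hm
    obtain ⟨γ₀, h1, h2⟩ := key
    obtain ⟨γ, h3, h4, h5⟩ := lift3 q hq3 h1 h2
    refine ⟨γ, h3, h4, ?_⟩
    unfold kp
    rw [dif_pos ⟨hq, hq3⟩]
    exact kq_ne q hq3 h3 h5

end Pool.Agent.Q182.CC
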