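import Pool.Agent.Q152.CC.Stm2
import Pool.Agent.Helper112.Arith

set_option autoImplicit false

/-!
Project CC (helper152), job SUM: the sum over the frequencies.
-/

namespace Pool.Agent.Q182.CC

open Finset Pool.Agent.Y692.QS Pool.Agent.Q152.CC

theorem nr_uu (i j : ℤ) : nr (uu i j) = i ^ 2 + i * j + j ^ 2 := by
  unfold nr uu
  ring

theorem nr_uu_pos {i j : ℤ} (h : (i, j) ≠ (0, 0)) : 0 < nr (uu i j) := by
  have h0 : 0 ≤ nr (uu i j) := nr_nonneg _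
  rcases h0.lt_or_eq with h1 | h1
  · exact h1
  · exfalso
    apply h
    have h2 := nr_zero_iff.1 h1.symm
    have h3 : (uu i j).im = 0 := by rw [h2]; rfl
    have h4 : (uu i j).re = 0 := by rw [h2]; rfl
    have h5 : i = 0 := h3
    have h6 : i + j = 0 := h4
    rw [h5] at h6 ⊢
    rw [zero_add] at h6
    rw [h6]

theorem nr_uu_le {T : ℕ} {i j : ℤ} (hi : i ∈ Icc (-(T : ℤ)) T) (hj : j ∈ Icc (-(T : ℤ)) T) :
    nr (uu i j) ≤ 3 * (T : ℤ) ^ 2 := by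
  rw [nr_uu]
  obtain ⟨a1, a2⟩ := Finset.mem_Icc.1 hi
  obtain ⟨b1, b2⟩ := Finset.mem_Icc.1 hj
  have h1 : i ^ 2 ≤ (T : ℤ) ^ 2 := sq_le_sq' a1 a2
  have h2 : j ^ 2 ≤ (T : ℤ) ^ 2 := sq_le_sq' b1 b2
  nlinarith [sq_nonneg (i - j)]

theorem harm (n : ℕ) : ∑ k ∈ Icc 1 n, (1 : ℝ) / k ≤ 1 + Real.log n := by
  have h := harmonic_le_one_add_log n
  rw [harmonic_eq_sum_Icc] at h
  push_cast at h
  refine le_trans (le_of_eq ?_) h
  exact Finset.sum_congr rfl fun k _ => one_div _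

/-- the sum for one divisor -/
theorem one_d {C η : ℝ} (hC : 0 < C) (hη : 0 < η)
    (hr : ∀ m : ℕ, 1 ≤ m → {t : ℤ × ℤ | nr (uu t.1 t.2) = m}.Finite ∧
      (({t : ℤ × ℤ | nr (uu t.1 t.2) = m}.ncard : ℕ) : ℝ) ≤ C * (m : ℝ) ^ η)
    {T d : ℕ} (hT : 1 ≤ T) (hd : 1 ≤ d) :
    ∑ t ∈ (((Icc (-(T : ℤ)) T) ×ˢ (Icc (-(T : ℤ)) T)).erase (0, 0)).filter
        (fun t => (d : ℤ) ∣ nr (uu t.1 t.2)), Real.sqrt d / (nr (uu t.1 t.2) : ℝ) ≤
      C * ((3 * T ^ 2 : ℕ) : ℝ) ^ η * (1 + Real.log ((3 * T ^ 2 : ℕ) : ℝ)) := by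
  classical
  set S := (((Icc (-(T : ℤ)) T) ×ˢ (Icc (-(T : ℤ)) T)).erase (0, 0)).filter
        (fun t => (d : ℤ) ∣ nr (uu t.1 t.2)) with hS
  set n : ℕ := 3 * T ^ 2 with hn
  have hS' : ∀ t ∈ S, ∃ k ∈ Icc 1 n, nr (uu t.1 t.2) = ((d * k : ℕ) : ℤ) := by
    intro t ht
    obtain ⟨h1, h2⟩ := Finset.mem_filter.1 ht
    obtain ⟨h3, h4⟩ := Finset.mem_erase.1 h1
    obtain ⟨h5, h6⟩ := Finset.mem_product.1 h4
    obtain ⟨k, hk⟩ := h2
    have h7 : 0 < nr (uu t.1 t.2) := nr_uu_pos h3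
    have h8 := nr_uu_le h5 h6
    have hd' : (1 : ℤ) ≤ d := by exact_mod_cast hd
    have hk0 : 0 < k := by
      by_contra h
      push Not at h
      nlinarith
    refine ⟨k.toNat, Finset.mem_Icc.2 ⟨by omega, ?_⟩, ?_⟩
    · have : (k : ℤ) ≤ (n : ℤ) := by
        rw [hn]
        push_cast
        nlinarith
      omega
    · push_cast
      rw [Int.toNat_of_nonneg hk0.le, hk]
  have h1 : ∑ t ∈ S, Real.sqrt d / (nr (uu t.1 t.2) : ℝ) ≤
      ∑ t ∈ S, ∑ k ∈ Icc 1 n, if nr (uu t.1 t.2) = ((d * k : ℕ) : ℤ) then Real.sqrt d / ((d * k : ℕ) : ℝ) else 0 := by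
    refine Finset.sum_le_sum fun t ht => ?_
    obtain ⟨k, hk, hk'⟩ := hS' t ht
    have h2 : Real.sqrt d / (nr (uu t.1 t.2) : ℝ) =
        (if nr (uu t.1 t.2) = ((d * k : ℕ) : ℤ) then Real.sqrt d / ((d * k : ℕ) : ℝ) else 0) := by
      rw [if_pos hk', hk']
      congr 1
    rw [h2]
    refine Finset.single_le_sum (f := fun k => if nr (uu t.1 t.2) = ((d * k : ℕ) : ℤ) then
      Real.sqrt d / ((d * k : ℕ) : ℝ) else 0) (fun j _ => ?_) hk
    show 0 ≤ (if nr (uu t.1 t.2) = ((d * j : ℕ) : ℤ) then Real.sqrt d / ((d * j : ℕ) : ℝ) else 0)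
    split_ifs
    · positivity
    · exact le_refl 0
  refine h1.trans ?_
  rw [Finset.sum_comm]
  have h3 : ∀ k ∈ Icc 1 n, ∑ t ∈ S, (if nr (uu t.1 t.2) = ((d * k : ℕ) : ℤ) then
      Real.sqrt d / ((d * k : ℕ) : ℝ) else 0) ≤ C * (n : ℝ) ^ η * (1 / k) := by
    intro k hk
    obtain ⟨hk1, hk2⟩ := Finset.mem_Icc.1 hk
    rw [← Finset.sum_filter, Finset.sum_const, nsmul_eq_mul]
    have hk0 : (0 : ℝ) < k := by exact_mod_cast hk1
    have hd0 : (0 : ℝ) < d := by exact_mod_cast hd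
    have h4 : Real.sqrt d / ((d * k : ℕ) : ℝ) ≤ 1 / k := by
      push_cast
      rw [div_le_div_iff₀ (by positivity) hk0, one_mul]
      have : Real.sqrt d ≤ d := by
        rw [Real.sqrt_le_left hd0.le]
        have : (1 : ℝ) ≤ d := by exact_mod_cast hd
        nlinarith
      nlinarith
    have h5 : ((S.filter fun t => nr (uu t.1 t.2) = ((d * k : ℕ) : ℤ)).card : ℝ) ≤ C * (n : ℝ) ^ η := by
      by_cases he : (S.filter fun t => nr (uu t.1 t.2) = ((d * k : ℕ) : ℤ)) = ∅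
      · rw [he, Finset.card_empty]
        push_cast
        positivity
      · obtain ⟨t, ht⟩ := Finset.nonempty_iff_ne_empty.2 he
        obtain ⟨ht1, ht2⟩ := Finset.mem_filter.1 ht
        obtain ⟨a1, -⟩ := Finset.mem_filter.1 ht1
        obtain ⟨-, a4⟩ := Finset.mem_erase.1 a1
        obtain ⟨a5, a6⟩ := Finset.mem_product.1 a4
        have a7 := nr_uu_le a5 a6
        rw [ht2] at a7
        have a8 : d * k ≤ n := by
          rw [hn]
          exact_mod_cast a7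
        obtain ⟨b1, b2⟩ := hr (d * k) (Nat.mul_pos hd hk1)
        have b3 : (S.filter fun t => nr (uu t.1 t.2) = ((d * k : ℕ) : ℤ)).card ≤
            {t : ℤ × ℤ | nr (uu t.1 t.2) = ((d * k : ℕ) : ℤ)}.ncard := by
          rw [← Set.ncard_coe_finset]
          refine Set.ncard_le_ncard ?_ b1
          intro s hs
          exact (Finset.mem_filter.1 (Finset.mem_coe.1 hs)).2
        calc ((S.filter fun t => nr (uu t.1 t.2) = ((d * k : ℕ) : ℤ)).card : ℝ)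
            ≤ (({t : ℤ × ℤ | nr (uu t.1 t.2) = ((d * k : ℕ) : ℤ)}.ncard : ℕ) : ℝ) := by
              exact_mod_cast b3
          _ ≤ C * ((d * k : ℕ) : ℝ) ^ η := b2
          _ ≤ C * (n : ℝ) ^ η := by
              refine mul_le_mul_of_nonneg_left ?_ hC.le
              exact Real.rpow_le_rpow (by positivity) (by exact_mod_cast a8) hη.le
    exact mul_le_mul h5 h4 (by positivity) (by positivity)
  refine (Finset.sum_le_sum h3).trans ?_
  rw [← Finset.mul_sum]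
  exact mul_le_mul_of_nonneg_left (harm n) (by positivity)

theorem sm (ann : S_ANN) (rep : S_REP) : S_SUM := by
  classical
  intro η hη
  obtain ⟨C₁, hC₁, hr⟩ := rep (η / 6) (by positivity)
  obtain ⟨C₂, hC₂, hdv⟩ := Pool.Agent.Helper112.divisor_bound (η / 6) (by positivity)
  set e : ℝ := η / 6 with he
  have he0 : 0 < e := by positivity
  refine ⟨C₂ * C₁ * (1 + 1 / e) * ((3 : ℝ) ^ e * (3 : ℝ) ^ e), by positivity, ?_⟩
  intro T hT
  have hT0 : (0 : ℝ) < T := by exact_mod_cast hT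
  set S := ((Icc (-(T : ℤ)) T) ×ˢ (Icc (-(T : ℤ)) T)).erase (0, 0) with hS
  set n : ℕ := 3 * T ^ 2 with hn
  have hn1 : (1 : ℝ) ≤ n := by
    have : 1 ≤ n := by
      rw [hn]
      have := Nat.pow_le_pow_left hT 2
      omega
    exact_mod_cast this
  have h1 : ∑ t ∈ S, Real.sqrt (an T t.1 t.2) / (nr (uu t.1 t.2) : ℝ) ≤
      ∑ t ∈ S, ∑ d ∈ (T ^ 2).divisors, if (d : ℤ) ∣ nr (uu t.1 t.2) then
        Real.sqrt d / (nr (uu t.1 t.2) : ℝ) else 0 := by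
    refine Finset.sum_le_sum fun t ht => ?_
    obtain ⟨h3, -⟩ := Finset.mem_erase.1 ht
    have h7 : (0 : ℝ) < (nr (uu t.1 t.2) : ℝ) := by exact_mod_cast nr_uu_pos h3
    obtain ⟨a1, a2⟩ := ann T t.1 t.2 hT
    have h2 : Real.sqrt (an T t.1 t.2) / (nr (uu t.1 t.2) : ℝ) =
        (if ((an T t.1 t.2 : ℕ) : ℤ) ∣ nr (uu t.1 t.2) then
          Real.sqrt (an T t.1 t.2) / (nr (uu t.1 t.2) : ℝ) else 0) := by
      rw [if_pos a2]
    rw [h2]
    refine Finset.single_le_sum (f := fun d : ℕ => if (d : ℤ) ∣ nr (uu t.1 t.2) then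
      Real.sqrt d / (nr (uu t.1 t.2) : ℝ) else 0) (fun j _ => ?_)
      (Nat.mem_divisors.2 ⟨a1, by positivity⟩)
    show 0 ≤ (if (j : ℤ) ∣ nr (uu t.1 t.2) then Real.sqrt j / (nr (uu t.1 t.2) : ℝ) else 0)
    split_ifs
    · positivity
    · exact le_refl 0
  refine h1.trans ?_
  rw [Finset.sum_comm]
  have h4 : ∀ d ∈ (T ^ 2).divisors, ∑ t ∈ S, (if (d : ℤ) ∣ nr (uu t.1 t.2) then
      Real.sqrt d / (nr (uu t.1 t.2) : ℝ) else 0) ≤ C₁ * (n : ℝ) ^ e * (1 + Real.log n) := by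
    intro d hd
    have hd1 : 1 ≤ d := Nat.pos_of_mem_divisors hd
    rw [← Finset.sum_filter]
    exact one_d hC₁ he0 hr hT hd1
  refine (Finset.sum_le_sum h4).trans ?_
  rw [Finset.sum_const, nsmul_eq_mul]
  have h5 : (((T ^ 2).divisors.card : ℕ) : ℝ) ≤ C₂ * ((T ^ 2 : ℕ) : ℝ) ^ e :=
    hdv (T ^ 2) (Nat.pow_pos hT)
  have h6 : 1 + Real.log n ≤ (1 + 1 / e) * (n : ℝ) ^ e := by
    have b1 : Real.log n ≤ (n : ℝ) ^ e / e := Real.log_le_rpow_div (by positivity) he0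
    have b2 : (1 : ℝ) ≤ (n : ℝ) ^ e := Real.one_le_rpow hn1 he0.le
    calc 1 + Real.log n ≤ (n : ℝ) ^ e + (n : ℝ) ^ e / e := add_le_add b2 b1
      _ = _ := by ring
  have h7 : (n : ℝ) ^ e = (3 : ℝ) ^ e * ((T : ℝ) ^ e * (T : ℝ) ^ e) := by
    rw [hn]
    push_cast
    rw [Real.mul_rpow (by norm_num) (by positivity), pow_two, Real.mul_rpow hT0.le hT0.le]
  have h8 : ((T ^ 2 : ℕ) : ℝ) ^ e = (T : ℝ) ^ e * (T : ℝ) ^ e := by
    push_cast
    rw [pow_two, Real.mul_rpow hT0.le hT0.le]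
  have h9 : (T : ℝ) ^ η = (T : ℝ) ^ e * (T : ℝ) ^ e * ((T : ℝ) ^ e * (T : ℝ) ^ e) *
      ((T : ℝ) ^ e * (T : ℝ) ^ e) := by
    rw [← Real.rpow_add hT0, ← Real.rpow_add hT0, ← Real.rpow_add hT0]
    congr 1
    rw [he]
    ring
  have hTe : 0 < (T : ℝ) ^ e := Real.rpow_pos_of_pos hT0 _
  have hne : 0 < (n : ℝ) ^ e := Real.rpow_pos_of_pos (by linarith) _
  calc (((T ^ 2).divisors.card : ℕ) : ℝ) * (C₁ * (n : ℝ) ^ e * (1 + Real.log n))
      ≤ (C₂ * ((T ^ 2 : ℕ) : ℝ) ^ e) * (C₁ * (n : ℝ) ^ e * ((1 + 1 / e) * (n : ℝ) ^ e)) := by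
        refine mul_le_mul h5 ?_ ?_ (by positivity)
        · exact mul_le_mul_of_nonneg_left h6 (by positivity)
        · have : 0 ≤ 1 + Real.log n := by
            have := Real.log_nonneg hn1
            linarith
          positivity
    _ = _ := by
        rw [h8, h7, h9]
        ring

end Pool.Agent.Q182.CC
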